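import Pool.Agent.U220.RD.Stm2

/-!
# The residue field of the coordinate valuation (package RES of project RD)
-/

set_option autoImplicit false

namespace Pool.Agent.U780.RD

open MvPolynomial Pool.Agent.U220.RD

variable {σ κ : Type} [Field κ] [Algebra ℂ κ]

theorem const_mem {O : ValuationSubring κ} {u : σ → κ} (h : ResInd O u) (c : ℂ) :
    algebraMap ℂ κ c ∈ O := by
  by_cases hc : c = 0
  · rw [hc, map_zero]
    exact O.zero_mem
  · have h1 := h (C c) (by rwa [Ne, C_eq_zero])
    rw [aeval_C] at h1
    exact (O.valuation_le_one_iff _).1 h1.le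

/-- the constants in the valuation ring -/
def cst {O : ValuationSubring κ} {u : σ → κ} (h : ResInd O u) : ℂ →+* O :=
  (algebraMap ℂ κ).codRestrict O.toSubring (const_mem h)

theorem coe_cst {O : ValuationSubring κ} {u : σ → κ} (h : ResInd O u) (c : ℂ) :
    ((cst h c : O) : κ) = algebraMap ℂ κ c := rfl

theorem coe_eval {O : ValuationSubring κ} {u : σ → κ} (h : ResInd O u) (G : σ → O)
    (hG : ∀ j, (G j : κ) = u j) (p : MvPolynomial σ ℂ) :
    ((eval₂ (cst h) G p : O) : κ) = aeval u p := by
  have h1 := hom_eval₂ p (cst h) O.subtype G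
  have h2 : O.subtype (eval₂ (cst h) G p) = ((eval₂ (cst h) G p : O) : κ) := rfl
  rw [← h2, h1, aeval_def]
  have h3 : O.subtype.comp (cst h) = algebraMap ℂ κ := by
    ext c
    rfl
  have h4 : (fun j => O.subtype (G j)) = u := by
    funext j
    exact hG j
  rw [h3]
  congr 1

omit [Algebra ℂ κ] in
theorem residue_ne {O : ValuationSubring κ} (x : O) (h : O.valuation (x : κ) = 1) :
    IsLocalRing.residue O x ≠ 0 := by
  have h1 : IsUnit x := (O.valuation_eq_one_iff x).2 h
  intro h0
  exact (IsLocalRing.residue_ne_zero_iff_isUnit x).2 h1 h0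

theorem t_RES : S_CST → S_RES := by
  intro hCST σ κ _ _ g f hind htop O hres hval
  obtain ⟨h1, h2, -⟩ := hCST σ κ g f hind htop O hres hval
  let alg : Algebra ℂ (IsLocalRing.ResidueField O) :=
    ((IsLocalRing.residue O).comp (cst hres)).toAlgebra
  have halg : algebraMap ℂ (IsLocalRing.ResidueField O) = (IsLocalRing.residue O).comp (cst hres) :=
    rfl
  refine ⟨IsLocalRing.ResidueField O, inferInstance, alg, IsLocalRing.residue O,
    IsLocalRing.residue_surjective, ?_, ?_⟩
  · intro c x hx
    have : x = cst hres c := Subtype.ext hx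
    rw [this]
    rfl
  · intro G hG
    have hev : ∀ p : MvPolynomial {j // j ≠ f} ℂ,
        aeval (fun j => IsLocalRing.residue O (G j)) p =
          IsLocalRing.residue O (eval₂ (cst hres) G p) := by
      intro p
      rw [hom_eval₂ p (cst hres) (IsLocalRing.residue O) G, aeval_def, halg]
    have hne : ∀ p : MvPolynomial {j // j ≠ f} ℂ, p ≠ 0 →
        IsLocalRing.residue O (eval₂ (cst hres) G p) ≠ 0 := by
      intro p hp
      apply residue_ne
      rw [coe_eval hres G hG]
      exact hres p hp
    refine ⟨?_, ?_⟩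
    · rw [algebraicIndependent_iff]
      intro p hp
      by_contra h0
      rw [hev] at hp
      exact hne p h0 hp
    · rw [eq_top_iff]
      intro y _
      obtain ⟨x, rfl⟩ := IsLocalRing.residue_surjective y
      by_cases hx : IsLocalRing.residue O x = 0
      · rw [hx]
        exact zero_mem _
      have hxu : IsUnit x := by
        by_contra h0
        exact hx ((IsLocalRing.residue_eq_zero_iff x).2 h0)
      have hvx : O.valuation (x : κ) = 1 := (O.valuation_eq_one_iff x).1 hxu
      have hx0 : (x : κ) ≠ 0 := by
        intro h0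
        rw [h0, map_zero] at hvx
        exact zero_ne_one hvx
      have hgf : g f ≠ 0 := hind.ne_zero f
      obtain ⟨m, w, hw, hw0, hm1, hm2⟩ := h2 x hx0
      have hm : m = 0 := by
        by_contra hm
        rw [map_div₀, map_zpow₀, hvx, one_div, inv_eq_one] at hm1
        have hlt : O.valuation (g f) < 1 := hval
        have hne0 : O.valuation (g f) ≠ 0 := (Valuation.ne_zero_iff _).2 hgf
        rcases lt_or_gt_of_ne hm with hm' | hm'
        · obtain ⟨n, hn⟩ : ∃ n : ℕ, m = -((n : ℤ) + 1) := ⟨(-m - 1).toNat, by omega⟩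
          rw [hn, zpow_neg, inv_eq_one, ← Nat.cast_succ, zpow_natCast] at hm1
          exact absurd hm1 (pow_lt_one₀ zero_le hlt (Nat.succ_ne_zero n)).ne
        · obtain ⟨n, hn⟩ : ∃ n : ℕ, m = (n : ℤ) + 1 := ⟨(m - 1).toNat, by omega⟩
          rw [hn, ← Nat.cast_succ, zpow_natCast] at hm1
          exact absurd hm1 (pow_lt_one₀ zero_le hlt (Nat.succ_ne_zero n)).ne
      rw [hm, zpow_zero, div_one] at hm2
      have hvw := h1 w hw hw0
      have hwO : w ∈ O := (O.valuation_le_one_iff _).1 hvw.le
      have hxw : IsLocalRing.residue O x = IsLocalRing.residue O ⟨w, hwO⟩ := by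
        rw [← sub_eq_zero, ← map_sub, IsLocalRing.residue_eq_zero_iff]
        intro hu
        have := (O.valuation_eq_one_iff _).1 hu
        have h3 : ((x - ⟨w, hwO⟩ : O) : κ) = (x : κ) - w := rfl
        rw [h3] at this
        exact absurd this hm2.ne
      have hset : g '' {f}ᶜ = Set.range (fun j : {j // j ≠ f} => g j) := by
        ext z
        simp only [Set.mem_image, Set.mem_compl_iff, Set.mem_singleton_iff, Set.mem_range,
          Subtype.exists, exists_prop]
      rw [hset, IntermediateField.mem_adjoin_range_iff] at hw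
      obtain ⟨r, s, hrs⟩ := hw
      have hs : s ≠ 0 := by
        rintro rfl
        rw [map_zero, div_zero] at hrs
        exact hw0 hrs
      have hs0 : aeval (fun j : {j // j ≠ f} => g j) s ≠ 0 := by
        intro h0
        have := hres s hs
        rw [h0, map_zero] at this
        exact zero_ne_one this
      have hmul : (⟨w, hwO⟩ : O) * eval₂ (cst hres) G s = eval₂ (cst hres) G r := by
        apply Subtype.ext
        change w * ((eval₂ (cst hres) G s : O) : κ) = ((eval₂ (cst hres) G r : O) : κ)
        rw [coe_eval hres G hG, coe_eval hres G hG, hrs, div_mul_cancel₀ _ hs0]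
      have h4 := congrArg (IsLocalRing.residue O) hmul
      rw [map_mul, ← hev, ← hev] at h4
      have h5 : aeval (fun j => IsLocalRing.residue O (G j)) s ≠ 0 := by
        rw [hev]
        exact hne s hs
      rw [hxw, IntermediateField.mem_adjoin_range_iff]
      exact ⟨r, s, by rw [← h4, mul_div_cancel_right₀ _ h5]⟩

end Pool.Agent.U780.RD
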